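import Pool.Agent.helper56.P2.SpecW

set_option autoImplicit false
set_option linter.unusedVariables false

open scoped ContDiff Topology ComplexConjugate ENNReal
open MeasureTheory Filter Set Metric MvPolynomial Pool.Agent.helper37.QA

namespace Pool.Agent.P2W

open Pool.Agent.P2

theorem WPA_nq_nonneg {n : ℕ} (v : Fin n → ℂ) : 0 ≤ nq v :=
  Finset.sum_nonneg fun _ _ => Complex.normSq_nonneg _

theorem WPA_nq_smul {n : ℕ} (c : ℂ) (v : Fin n → ℂ) : nq (c • v) = Complex.normSq c * nq v := by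
  unfold nq
  rw [Finset.mul_sum]
  refine Finset.sum_congr rfl fun i _ => ?_
  rw [Pi.smul_apply, smul_eq_mul, Complex.normSq_mul]

theorem WPA_sqrt_nq {n : ℕ} (v : Fin n → ℂ) : Real.sqrt (nq v) = ‖(WithLp.toLp 2 v : EuclideanSpace ℂ (Fin n))‖ := by
  rw [EuclideanSpace.norm_eq]
  congr 1
  unfold nq
  refine Finset.sum_congr rfl fun i _ => ?_
  exact Complex.normSq_eq_norm_sq (v i)

theorem WPA_tri {n : ℕ} (v w : Fin n → ℂ) : Real.sqrt (nq (v + w)) ≤ Real.sqrt (nq v) + Real.sqrt (nq w) := by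
  rw [WPA_sqrt_nq, WPA_sqrt_nq, WPA_sqrt_nq, WithLp.toLp_add]
  exact norm_add_le _ _

theorem WPA_crs_add (u v w : E3) : crs u (v + w) = crs u v + crs u w := by
  funext i
  fin_cases i <;> simp [crs] <;> ring

theorem WPA_crs_smul (u v : E3) (c : ℂ) : crs u (c • v) = c • crs u v := by
  funext i
  fin_cases i <;> simp [crs] <;> ring

theorem WPA_Af_smul {d : ℕ} (f : Endo 2 d) (m : ℕ) (ι : Fin 2) (c : ℂ) (κ : ℝ) (γ : ℂ → ℂ) (q a : ℂ × ℂ) (z : ℂ) :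
    Af f m ι c κ γ q (z • a) = Complex.normSq z * Af f m ι c κ γ q a := by
  unfold Af
  rw [map_smul, WPA_crs_smul, WPA_nq_smul, mul_div_assoc]

theorem WPA_Af_nonneg {d : ℕ} (f : Endo 2 d) (m : ℕ) (ι : Fin 2) (c : ℂ) (κ : ℝ) (γ : ℂ → ℂ) (q a : ℂ × ℂ) :
    0 ≤ Af f m ι c κ γ q a := by
  unfold Af
  exact div_nonneg (WPA_nq_nonneg _) (sq_nonneg _)

theorem WPA_N_smul {d : ℕ} (f : Endo 2 d) (m : ℕ) (ι : Fin 2) (c : ℂ) (κ : ℝ) (γ : ℂ → ℂ) (q a : ℂ × ℂ) (z : ℂ) :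
    Real.sqrt (Af f m ι c κ γ q (z • a)) = ‖z‖ * Real.sqrt (Af f m ι c κ γ q a) := by
  rw [WPA_Af_smul, Complex.normSq_eq_norm_sq, Real.sqrt_mul (sq_nonneg _), Real.sqrt_sq (norm_nonneg _)]

theorem WPA_N_add {d : ℕ} (f : Endo 2 d) (m : ℕ) (ι : Fin 2) (c : ℂ) (κ : ℝ) (γ : ℂ → ℂ) (q a b : ℂ × ℂ) :
    Real.sqrt (Af f m ι c κ γ q (a + b)) ≤ Real.sqrt (Af f m ι c κ γ q a) + Real.sqrt (Af f m ι c κ γ q b) := by
  unfold Af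
  rw [map_add, WPA_crs_add, Real.sqrt_div (WPA_nq_nonneg _), Real.sqrt_div (WPA_nq_nonneg _),
    Real.sqrt_div (WPA_nq_nonneg _), ← add_div]
  exact div_le_div_of_nonneg_right (WPA_tri _ _) (Real.sqrt_nonneg _)

theorem WPA_log (A B ρ κ Λ : ℝ) (hA : 0 ≤ A) (hB : 0 ≤ B) (hρ : 0 < ρ) (hρ1 : ρ ≤ 1 / 16) (hκ : 0 < κ)
    (hκ1 : κ ≤ 1 / 10) (hΛ : 0 ≤ Λ) (h1 : 1 ≤ ρ ^ 2 * A) :
    Real.log ((Real.sqrt (ρ ^ 2 * A) + Real.sqrt (κ ^ 2 * ρ ^ 2 * B) + 1) ^ 2 / (ρ ^ 2 * A)) ≤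
      Real.log 16 + (Real.log (A + B + Real.exp (-Λ)) - Real.log (A + Real.exp (-Λ))) := by
  have hx2 : Real.sqrt (ρ ^ 2 * A) ^ 2 = ρ ^ 2 * A := Real.sq_sqrt (by positivity)
  have hy2 : Real.sqrt (κ ^ 2 * ρ ^ 2 * B) ^ 2 = κ ^ 2 * ρ ^ 2 * B := Real.sq_sqrt (by positivity)
  have hx1 : 1 ≤ Real.sqrt (ρ ^ 2 * A) := by
    rw [Real.one_le_sqrt]
    exact h1
  have hy0 : 0 ≤ Real.sqrt (κ ^ 2 * ρ ^ 2 * B) := Real.sqrt_nonneg _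
  set x := Real.sqrt (ρ ^ 2 * A) with hx
  set y := Real.sqrt (κ ^ 2 * ρ ^ 2 * B) with hy
  have he0 : 0 < Real.exp (-Λ) := Real.exp_pos _
  have he1 : Real.exp (-Λ) ≤ 1 := Real.exp_le_one_iff.mpr (by linarith)
  set e := Real.exp (-Λ) with hedef
  have hρ2 : ρ ^ 2 ≤ 1 := by nlinarith
  have hA1 : 1 ≤ A := by nlinarith
  have hρA : 0 < ρ ^ 2 * A := by linarith
  have hAe : 0 < A + e := by linarith
  have hABe : 0 < A + B + e := by linarith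
  rw [← Real.log_div hABe.ne' hAe.ne', ← Real.log_mul (by norm_num) (by positivity)]
  apply Real.log_le_log
  · positivity
  · rw [div_le_iff₀ hρA]
    have h3 : (x + y + 1) ^ 2 ≤ 8 * (ρ ^ 2 * A) + 2 * (κ ^ 2 * ρ ^ 2 * B) := by
      rw [← hx2, ← hy2]
      nlinarith [sq_nonneg (2 * x - y), mul_nonneg hy0 (by linarith : (0 : ℝ) ≤ x - 1)]
    have h4 : 8 * (ρ ^ 2 * A) + 2 * (κ ^ 2 * ρ ^ 2 * B) ≤ 8 * ρ ^ 2 * (A + B) := by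
      have hκ2 : κ ^ 2 ≤ 1 := by nlinarith
      have h5 : κ ^ 2 * (ρ ^ 2 * B) ≤ 1 * (ρ ^ 2 * B) := mul_le_mul_of_nonneg_right hκ2 (by positivity)
      nlinarith [h5, mul_nonneg (sq_nonneg ρ) hB]
    have h6 : A + B ≤ 2 * ((A + B + e) / (A + e)) * A := by
      rw [mul_div_assoc', div_mul_eq_mul_div, le_div_iff₀ hAe]
      nlinarith [mul_nonneg hA hB, mul_nonneg he0.le hB, mul_nonneg he0.le hA]
    calc (x + y + 1) ^ 2 ≤ 8 * ρ ^ 2 * (A + B) := h3.trans h4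
      _ ≤ 8 * ρ ^ 2 * (2 * ((A + B + e) / (A + e)) * A) := mul_le_mul_of_nonneg_left h6 (by positivity)
      _ = 16 * ((A + B + e) / (A + e)) * (ρ ^ 2 * A) := by ring

theorem WPA (hWHO : WHO_stmt) (hWSC : WSC_stmt) : WPA_stmt := by
  intro d f U hd τ κ C0 α hτ hκ hκ1 hWC ι c γ m n ξ0 ρ p hTb hξ0 hρ hρ1 hκρ hp
  have hq1 : ‖ξ0 + (ρ : ℂ) * p.1‖ < 1 := by
    have h1 : ‖p.1‖ < 4 := hp.1
    calc ‖ξ0 + (ρ : ℂ) * p.1‖ ≤ ‖ξ0‖ + ‖(ρ : ℂ) * p.1‖ := norm_add_le _ _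
      _ = ‖ξ0‖ + ρ * ‖p.1‖ := by rw [norm_mul, Complex.norm_real, Real.norm_of_nonneg hρ.le]
      _ < 1 := by nlinarith [norm_nonneg p.1]
  have hpt : ((ξ0 + (ρ : ℂ) * p.1, ((κ * ρ : ℝ) : ℂ) * p.2) : ℂ × ℂ) = Sc ξ0 ρ κ p := by
    unfold Sc
    rw [Complex.ofReal_mul, mul_assoc]
  have hfun : ∀ (g : ℂ × ℂ → ℂ), (fun p : ℂ × ℂ => g (ξ0 + (ρ : ℂ) * p.1, ((κ * ρ : ℝ) : ℂ) * p.2)) = fun p => g (Sc ξ0 ρ κ p) := by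
    intro g
    funext p'
    unfold Sc
    rw [Complex.ofReal_mul, mul_assoc]
  have han := (hWHO d f ι c κ γ n hTb.hd).1
  have hanq : AnalyticAt ℂ (fun p => It f n (gp ι c κ γ p)) (Sc ξ0 ρ κ p) := han _ hq1
  have hanP : AnalyticAt ℂ (gP f n ι c κ γ) (Sc ξ0 ρ κ p) := (analyticAt_pi_iff.mp hanq) 0
  have hanQ : AnalyticAt ℂ (gQ f n ι c κ γ) (Sc ξ0 ρ κ p) := (analyticAt_pi_iff.mp hanq) 1
  obtain ⟨hcx, hcv, hom, -⟩ := hWSC (gP f n ι c κ γ) (gQ f n ι c κ γ) ξ0 ρ (κ * ρ) p hρ (mul_pos hκ hρ)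
    (by rw [hpt]; exact hanP) (by rw [hpt]; exact hanQ)
  rw [hpt, hfun, hfun] at hcx hcv hom
  have hcx' : P2U.cx (sP f n ι c κ γ ξ0 ρ) (sQ f n ι c κ γ ξ0 ρ) p =
      ρ * w1 (gP f n ι c κ γ) (gQ f n ι c κ γ) (Sc ξ0 ρ κ p) := hcx
  have hcv' : P2U.cv (sP f n ι c κ γ ξ0 ρ) (sQ f n ι c κ γ ξ0 ρ) p =
      ((κ * ρ : ℝ) : ℂ) * w2 (gP f n ι c κ γ) (gQ f n ι c κ γ) (Sc ξ0 ρ κ p) := hcv
  have hom' : P2U.om (sP f n ι c κ γ ξ0 ρ) (sQ f n ι c κ γ ξ0 ρ) p =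
      om (gP f n ι c κ γ) (gQ f n ι c κ γ) (Sc ξ0 ρ κ p) := hom
  set W1 := w1 (gP f n ι c κ γ) (gQ f n ι c κ γ) (Sc ξ0 ρ κ p) with hW1
  set W2 := w2 (gP f n ι c κ γ) (gQ f n ι c κ γ) (Sc ξ0 ρ κ p) with hW2
  set X1 := P2U.cx (sP f n ι c κ γ ξ0 ρ) (sQ f n ι c κ γ ξ0 ρ) p with hX1
  set X2 := P2U.cv (sP f n ι c κ γ ξ0 ρ) (sQ f n ι c κ γ ξ0 ρ) p with hX2
  refine ⟨?_, ?_, hom', ?_⟩
  · -- the inequality
    have hX : Real.sqrt (ρ ^ 2 * Af f m ι c κ γ (Sc ξ0 ρ κ p) (1, 0)) = ρ * Real.sqrt (Af f m ι c κ γ (Sc ξ0 ρ κ p) (1, 0)) := by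
      rw [Real.sqrt_mul (sq_nonneg _), Real.sqrt_sq hρ.le]
    have hY : Real.sqrt (κ ^ 2 * ρ ^ 2 * Af f m ι c κ γ (Sc ξ0 ρ κ p) (0, 1)) = κ * ρ * Real.sqrt (Af f m ι c κ γ (Sc ξ0 ρ κ p) (0, 1)) := by
      rw [← mul_pow, Real.sqrt_mul (sq_nonneg _), Real.sqrt_sq (mul_pos hκ hρ).le]
    have hs : Real.sqrt (‖X1‖ ^ 2 + ‖X2‖ ^ 2) ≤ ‖X1‖ + ‖X2‖ := by
      rw [Real.sqrt_le_left (by positivity)]
      nlinarith [norm_nonneg X1, norm_nonneg X2, mul_nonneg (norm_nonneg X1) (norm_nonneg X2)]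
    have hdec : ((ρ : ℂ) * X2) • ((1, 0) : ℂ × ℂ) = (-((κ * ρ ^ 2 : ℝ) : ℂ)) • P2.ev (gP f n ι c κ γ) (gQ f n ι c κ γ) (Sc ξ0 ρ κ p) +
        (((κ * ρ : ℝ) : ℂ) * X1) • ((0, 1) : ℂ × ℂ) := by
      unfold P2.ev
      rw [← hW1, ← hW2, hcx', hcv']
      ext
      · simp only [Prod.smul_fst, Prod.fst_add, smul_eq_mul]
        push_cast
        ring
      · simp only [Prod.smul_snd, Prod.snd_add, smul_eq_mul]
        push_cast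
        ring
    have h1 : ‖(ρ : ℂ) * X2‖ * Real.sqrt (Af f m ι c κ γ (Sc ξ0 ρ κ p) (1, 0)) ≤
        κ * ρ ^ 2 * Real.sqrt (Af f m ι c κ γ (Sc ξ0 ρ κ p) (P2.ev (gP f n ι c κ γ) (gQ f n ι c κ γ) (Sc ξ0 ρ κ p))) +
          ‖((κ * ρ : ℝ) : ℂ) * X1‖ * Real.sqrt (Af f m ι c κ γ (Sc ξ0 ρ κ p) (0, 1)) := by
      rw [← WPA_N_smul, hdec]
      refine (WPA_N_add _ _ _ _ _ _ _ _ _).trans ?_
      rw [WPA_N_smul, WPA_N_smul, norm_neg, Complex.norm_real, Real.norm_of_nonneg (by positivity)]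
    rw [norm_mul, Complex.norm_real, Real.norm_of_nonneg hρ.le, norm_mul, Complex.norm_real,
      Real.norm_of_nonneg (mul_pos hκ hρ).le] at h1
    rw [hX, hY]
    have h2 := mul_le_mul_of_nonneg_left hs (mul_nonneg hρ.le (Real.sqrt_nonneg (Af f m ι c κ γ (Sc ξ0 ρ κ p) (1, 0))))
    nlinarith [h1, h2]
  · rw [hcx', norm_mul, Complex.norm_real, Real.norm_of_nonneg hρ.le, mul_pow, Complex.normSq_eq_norm_sq]
  · intro Λ hΛ h1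
    exact WPA_log _ _ ρ κ Λ (WPA_Af_nonneg _ _ _ _ _ _ _ _) (WPA_Af_nonneg _ _ _ _ _ _ _ _) hρ hρ1 hκ hκ1 hΛ h1

end Pool.Agent.P2W
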