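import Pool.Agent.helper37.P2.SpecB

set_option autoImplicit false

open scoped ContDiff Topology
open MeasureTheory Filter Set Metric MvPolynomial Pool.Agent.helper37.QA

namespace Pool.Agent.P2

/-! ### The family of discs -/

theorem DCO_mv (A : M3) (i j : Fin 3) (s : ℂ) (W : E3) :
    mv (adE A i j s) W = mv A W + s • (Pi.single i (W j) : E3) := by
  funext k
  simp only [mv, adE, Pi.add_apply, Pi.smul_apply, smul_eq_mul, add_mul, Finset.sum_add_distrib]
  congr 1
  by_cases hk : k = i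
  · subst hk
    simp [ite_mul]
  · simp [hk]

theorem DCO_adE0 (A : M3) (i j : Fin 3) : adE A i j 0 = A := by
  funext k l
  simp [adE]

theorem DCO_near {r : ℝ} {A : M3} (hA : Near (r / 4) A) (i j : Fin 3) {s : ℂ} (hs : ‖s‖ < r / 2) :
    Near r (adE A i j s) := by
  intro k l
  have h1 := hA k l
  have h2 : ‖(if k = i ∧ l = j then s else 0 : ℂ)‖ < r / 2 := by
    split_ifs
    · exact hs
    · rw [norm_zero]
      linarith [norm_nonneg s]
  have h3 : adE A i j s k l - one3 k l = (A k l - one3 k l) + (if k = i ∧ l = j then s else 0) := by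
    simp only [adE]
    ring
  rw [h3]
  have h4 := norm_add_le (A k l - one3 k l) (if k = i ∧ l = j then s else 0)
  linarith [norm_nonneg s]

/-- `mv A` as a linear map -/
noncomputable def DCO_L (A : M3) : E3 →L[ℂ] E3 :=
  LinearMap.toContinuousLinearMap
    { toFun := fun W => mv A W
      map_add' := by
        intro V W
        funext k
        simp [mv, mul_add, Finset.sum_add_distrib]
      map_smul' := by
        intro c W
        funext k
        simp only [mv, Pi.smul_apply, smul_eq_mul, RingHom.id_apply, Finset.mul_sum]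
        refine Finset.sum_congr rfl fun l _ => ?_
        ring }

theorem DCO_L_apply (A : M3) (W : E3) : DCO_L A W = mv A W := rfl

/-- `W ↦ W_j e_i` as a linear map -/
noncomputable def DCO_S (i j : Fin 3) : E3 →L[ℂ] E3 :=
  LinearMap.toContinuousLinearMap
    { toFun := fun W => (Pi.single i (W j) : E3)
      map_add' := by
        intro V W
        funext k
        by_cases hk : k = i
        · subst hk; simp
        · simp [hk]
      map_smul' := by
        intro c W
        funext k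
        by_cases hk : k = i
        · subst hk; simp
        · simp [hk] }

theorem DCO_S_apply (i j : Fin 3) (W : E3) : DCO_S i j W = (Pi.single i (W j) : E3) := rfl

/-- the two parameter family -/
noncomputable def DCO_F (A : M3) (i j : Fin 3) (Z : ℂ → E3) (p : ℂ × ℂ) : E3 :=
  mv (adE A i j p.1) (Z p.2)

theorem DCO_F_eq (A : M3) (i j : Fin 3) (Z : ℂ → E3) (p : ℂ × ℂ) :
    DCO_F A i j Z p = DCO_L A (Z p.2) + p.1 • DCO_S i j (Z p.2) := DCO_mv A i j p.1 (Z p.2)

theorem DCO_F_fd {A : M3} {i j : Fin 3} {Z : ℂ → E3} {s z : ℂ} (hZ : DifferentiableAt ℂ Z z) :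
    DifferentiableAt ℂ (DCO_F A i j Z) (s, z) ∧
    ∀ a b : ℂ, fderiv ℂ (DCO_F A i j Z) (s, z) (a, b) =
      b • mv (adE A i j s) (deriv Z z) + a • (Pi.single i (Z z j) : E3) := by
  have h1 : HasFDerivAt (fun p : ℂ × ℂ => Z p.2)
      ((ContinuousLinearMap.toSpanSingleton ℂ (deriv Z z)).comp (ContinuousLinearMap.snd ℂ ℂ ℂ)) (s, z) := by
    have h2 : HasFDerivAt Z (ContinuousLinearMap.toSpanSingleton ℂ (deriv Z z)) z :=
      hZ.hasDerivAt.hasFDerivAt
    exact HasFDerivAt.comp (s, z) (f := fun p : ℂ × ℂ => p.2) (g := Z) h2 hasFDerivAt_snd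
  have h3 := (DCO_L A).hasFDerivAt.comp (s, z) h1
  have h4 := (DCO_S i j).hasFDerivAt.comp (s, z) h1
  have h5 : HasFDerivAt (fun p : ℂ × ℂ => p.1) (ContinuousLinearMap.fst ℂ ℂ ℂ) (s, z) := hasFDerivAt_fst
  have h6 := h3.add (h5.smul h4)
  have h7 := h6.congr_of_eventuallyEq (f₁ := DCO_F A i j Z)
    (Filter.Eventually.of_forall fun p => DCO_F_eq A i j Z p)
  refine ⟨h7.differentiableAt, fun a b => ?_⟩
  rw [h7.fderiv, DCO_mv]
  simp only [_root_.add_apply, ContinuousLinearMap.comp_apply, _root_.smul_apply,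
    ContinuousLinearMap.smulRight_apply, ContinuousLinearMap.coe_fst', ContinuousLinearMap.coe_snd',
    ContinuousLinearMap.toSpanSingleton_apply, map_smul, DCO_L_apply, DCO_S_apply, Function.comp]
  module

theorem DCO_F_cd {A : M3} {i j : Fin 3} {Z : ℂ → E3} (hZ : DifferentiableOn ℂ Z (ball 0 1)) :
    ContDiffOn ℂ ∞ (DCO_F A i j Z) (univ ×ˢ ball 0 1) := by
  have h0 : DCO_F A i j Z = fun p => DCO_L A (Z p.2) + p.1 • DCO_S i j (Z p.2) :=
    funext fun p => DCO_F_eq A i j Z p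
  have h1 : ContDiffOn ℂ ∞ Z (ball 0 1) := hZ.contDiffOn isOpen_ball
  have h2 : ContDiffOn ℂ ∞ (fun p : ℂ × ℂ => Z p.2) (univ ×ˢ ball 0 1) :=
    h1.comp contDiff_snd.contDiffOn fun p hp => hp.2
  rw [h0]
  exact ((DCO_L A).contDiff.comp_contDiffOn h2).add
    (contDiff_fst.contDiffOn.smul ((DCO_S i j).contDiff.comp_contDiffOn h2))

/-! ### The lift -/

theorem DCO_evcd (p : MvPolynomial (Fin 3) ℂ) : ContDiff ℂ ∞ fun x : E3 => eval x p := by
  induction p using MvPolynomial.induction_on with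
  | C a => simp only [eval_C]; exact contDiff_const
  | add p q hp hq => simp only [map_add]; exact hp.add hq
  | mul_X p i hp =>
    simp only [map_mul, eval_X]
    exact hp.mul (contDiff_apply ℂ ℂ i)

variable {d : ℕ}

theorem DCO_Icd (f : Endo 2 d) (N : ℕ) (k : Fin 3) : ContDiff ℂ ∞ fun W : E3 => It f N W k :=
  DCO_evcd (iter f.F N k)

theorem DCO_Idf (f : Endo 2 d) (N : ℕ) (k : Fin 3) : Differentiable ℂ fun W : E3 => It f N W k :=
  (DCO_Icd f N k).differentiable (by simp)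

theorem DCO_ccc (f : Endo 2 d) (N : ℕ) : Continuous fun q : E3 × E3 => cc f N q.1 q.2 := by
  have h1 : ∀ k : Fin 3, Continuous fun q : E3 × E3 => fderiv ℂ (fun W : E3 => It f N W k) q.1 q.2 :=
    fun k => (DCO_Icd f N k).continuous_fderiv_apply (by simp)
  have h2 : ∀ k : Fin 3, Continuous fun q : E3 × E3 => It f N q.1 k :=
    fun k => (DCO_Icd f N k).continuous.comp continuous_fst
  exact ((h2 1).mul (h1 0)).sub ((h2 0).mul (h1 1))

/-- first coordinate of the lift along the family -/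
noncomputable def DCO_P (f : Endo 2 d) (N : ℕ) (k : Fin 3) (A : M3) (i j : Fin 3) (Z : ℂ → E3) (p : ℂ × ℂ) : ℂ :=
  It f N (DCO_F A i j Z p) k

theorem DCO_P_fd (f : Endo 2 d) (N : ℕ) (k : Fin 3) {A : M3} {i j : Fin 3} {Z : ℂ → E3} {s z : ℂ}
    (hZ : DifferentiableAt ℂ Z z) :
    DifferentiableAt ℂ (DCO_P f N k A i j Z) (s, z) ∧
    ∀ v : ℂ × ℂ, fderiv ℂ (DCO_P f N k A i j Z) (s, z) v =
      fderiv ℂ (fun W : E3 => It f N W k) (DCO_F A i j Z (s, z)) (fderiv ℂ (DCO_F A i j Z) (s, z) v) := by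
  have h1 := (DCO_Idf f N k (DCO_F A i j Z (s, z))).hasFDerivAt
  have h2 := (DCO_F_fd (A := A) (i := i) (j := j) (s := s) hZ).1.hasFDerivAt
  have h3 := (h1.comp (s, z) h2).congr_of_eventuallyEq (f₁ := DCO_P f N k A i j Z)
    (Filter.Eventually.of_forall fun p => rfl)
  exact ⟨h3.differentiableAt, fun v => by rw [h3.fderiv]; rfl⟩

theorem DCO_w1 (f : Endo 2 d) (N : ℕ) {A : M3} {i j : Fin 3} {Z : ℂ → E3} {s z : ℂ}
    (hZ : DifferentiableAt ℂ Z z) :
    w1 (DCO_P f N 0 A i j Z) (DCO_P f N 1 A i j Z) (s, z) =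
      cc f N (mv (adE A i j s) (Z z)) (Pi.single i (Z z j)) := by
  have h0 := (DCO_P_fd f N 0 (A := A) (i := i) (j := j) (s := s) hZ).2 (1, 0)
  have h1 := (DCO_P_fd f N 1 (A := A) (i := i) (j := j) (s := s) hZ).2 (1, 0)
  have h2 := (DCO_F_fd (A := A) (i := i) (j := j) (s := s) hZ).2 1 0
  rw [zero_smul, zero_add, one_smul] at h2
  rw [h2] at h0 h1
  rw [w1, h0, h1]
  rfl

theorem DCO_w2 (f : Endo 2 d) (N : ℕ) {A : M3} {i j : Fin 3} {Z : ℂ → E3} {s z : ℂ}
    (hZ : DifferentiableAt ℂ Z z) :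
    w2 (DCO_P f N 0 A i j Z) (DCO_P f N 1 A i j Z) (s, z) =
      cc f N (mv (adE A i j s) (Z z)) (mv (adE A i j s) (deriv Z z)) := by
  have h0 := (DCO_P_fd f N 0 (A := A) (i := i) (j := j) (s := s) hZ).2 (0, 1)
  have h1 := (DCO_P_fd f N 1 (A := A) (i := i) (j := j) (s := s) hZ).2 (0, 1)
  have h2 := (DCO_F_fd (A := A) (i := i) (j := j) (s := s) hZ).2 0 1
  rw [zero_smul, add_zero, one_smul] at h2
  rw [h2] at h0 h1
  rw [w2, h0, h1]
  rfl

theorem DCO_cclin (f : Endo 2 d) (N : ℕ) (Z X Y : E3) (a b : ℂ) :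
    cc f N Z (a • X - b • Y) = a * cc f N Z X - b * cc f N Z Y := by
  simp only [cc, map_sub, map_smul, smul_eq_mul]
  ring

theorem DCO_ta (f : Endo 2 d) (N : ℕ) {A : M3} {i j : Fin 3} {Z : ℂ → E3} {s z : ℂ}
    (hZ : DifferentiableAt ℂ Z z) :
    ta (DCO_P f N 0 A i j Z) (DCO_P f N 1 A i j Z) ((d : ℝ) ^ N) (s, z) =
      tau f N (fun z => mv (adE A i j s) (Z z)) z := by
  have hd : ∀ k : Fin 3, fderiv ℂ (DCO_P f N k A i j Z) (s, z) (0, 1) =
      deriv (fun z => It f N (mv (adE A i j s) (Z z)) k) z := by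
    intro k
    have h1 := (DCO_P_fd f N k (A := A) (i := i) (j := j) (s := s) hZ).1.hasFDerivAt
    have h2 : HasDerivAt (fun z : ℂ => (s, z)) ((0 : ℂ), (1 : ℂ)) z :=
      (hasDerivAt_const z s).prodMk (hasDerivAt_id z)
    have h3 := h1.comp_hasDerivAt z h2
    exact h3.deriv.symm
  rw [ta, w2, hd 0, hd 1, om, tau]
  simp only [DCO_P, DCO_F, pq]
  rw [div_eq_mul_inv (1 / 2 * _) _]

/-! ### Cut-offs and parameter integrals -/

theorem DCO_contOn {X : Type*} [TopologicalSpace X] {a b : X → ℝ} {V S T : Set X} (hS : IsOpen S) (hT : IsClosed T)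
    (hVT : V ∩ T ⊆ S) (ha : Continuous a) (h0 : ∀ x, x ∉ T → a x = 0) (hb : ContinuousOn b S) :
    ContinuousOn (fun x => a x * b x) V := by
  intro x hx
  by_cases hxT : x ∈ T
  · have h1 : ContinuousAt b x := hb.continuousAt (hS.mem_nhds (hVT ⟨hx, hxT⟩))
    exact (ha.continuousAt.mul h1).continuousWithinAt
  · have h1 : (fun x => a x * b x) =ᶠ[𝓝 x] fun _ => (0 : ℝ) := by
      filter_upwards [hT.isOpen_compl.mem_nhds hxT] with y hy
      rw [h0 y hy, zero_mul]
    exact (continuousAt_const.congr h1.symm).continuousWithinAt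

theorem DCO_eta_cd : ContDiff ℝ ∞ eta := by
  have h1 : ContDiff ℝ ∞ fun z : ℂ => 5 - 8 * Complex.normSq z := by
    have h2 : ContDiff ℝ ∞ fun z : ℂ => Complex.normSq z := by
      have h3 : (fun z : ℂ => Complex.normSq z) = fun z : ℂ => z.re * z.re + z.im * z.im := by
        funext z
        exact Complex.normSq_apply z
      rw [h3]
      have hre : ContDiff ℝ ∞ fun z : ℂ => z.re := Complex.reCLM.contDiff
      have him : ContDiff ℝ ∞ fun z : ℂ => z.im := Complex.imCLM.contDiff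
      exact (hre.mul hre).add (him.mul him)
    exact contDiff_const.sub (contDiff_const.mul h2)
  exact Real.smoothTransition.contDiff.comp h1

theorem DCO_eta_zero {z : ℂ} (hz : z ∉ closedBall (0 : ℂ) (9 / 10)) : eta z = 0 := by
  have h1 : 9 / 10 < ‖z‖ := by
    simpa [mem_closedBall, dist_zero_right] using hz
  have h2 : (9 / 10 : ℝ) ^ 2 < ‖z‖ ^ 2 := by
    have h3 : (0 : ℝ) ≤ 9 / 10 := by norm_num
    nlinarith [norm_nonneg z]
  refine Real.smoothTransition.zero_of_nonpos ?_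
  rw [Complex.normSq_eq_norm_sq]
  nlinarith

theorem DCO_eta_ts : tsupport eta ⊆ ball 0 1 := by
  have h1 : tsupport eta ⊆ closedBall (0 : ℂ) (9 / 10) := by
    refine closure_minimal (fun z hz => ?_) isClosed_closedBall
    by_contra h
    exact hz (DCO_eta_zero h)
  exact h1.trans (closedBall_subset_ball (by norm_num))

theorem DCO_eta_c : Continuous eta := DCO_eta_cd.continuous

theorem DCO_cb : closedBall (0 : ℂ) (9 / 10) ⊆ ball 0 1 := closedBall_subset_ball (by norm_num)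

/-- continuity of the parameter integral -/
theorem DCO_par {S : Set ℂ} (hS : IsOpen S) {g : ℂ × ℂ → ℝ} (hg : ContinuousOn g (S ×ˢ ball 0 1)) :
    ContinuousOn (fun s => ∫ z, eta z ^ 2 * g (s, z)) S := by
  refine continuousOn_integral_of_compact_support (k := closedBall (0 : ℂ) (9 / 10)) (isCompact_closedBall _ _) ?_ ?_
  · refine DCO_contOn (a := fun p : ℂ × ℂ => eta p.2 ^ 2) (b := g) (V := S ×ˢ univ) (S := S ×ˢ ball 0 1)
      (T := univ ×ˢ closedBall (0 : ℂ) (9 / 10)) (hS.prod isOpen_ball) (isClosed_univ.prod isClosed_closedBall) ?_ ?_ ?_ hg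
    · rintro ⟨s, z⟩ ⟨h1, h2⟩
      exact ⟨h1.1, DCO_cb h2.2⟩
    · exact (DCO_eta_c.comp continuous_snd).pow 2
    · rintro ⟨s, z⟩ h1
      have h2 : z ∉ closedBall (0 : ℂ) (9 / 10) := fun h => h1 ⟨mem_univ _, h⟩
      show eta z ^ 2 = 0
      rw [DCO_eta_zero h2]
      norm_num
  · intro s z _ hz
    show eta z ^ 2 * g (s, z) = 0
    rw [DCO_eta_zero hz]
    norm_num

/-- integrability of `η² g` -/
theorem DCO_int {g : ℂ → ℝ} (hg : ContinuousOn g (ball 0 1)) : Integrable fun z => eta z ^ 2 * g z := by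
  have h1 : Continuous fun z => eta z ^ 2 * g z := by
    rw [← continuousOn_univ]
    refine DCO_contOn (a := fun z => eta z ^ 2) (b := g) (V := univ) (S := ball 0 1)
      (T := closedBall (0 : ℂ) (9 / 10)) isOpen_ball isClosed_closedBall ?_ (DCO_eta_c.pow 2) ?_ hg
    · rintro z ⟨_, h2⟩
      exact DCO_cb h2
    · intro z hz
      show eta z ^ 2 = 0
      rw [DCO_eta_zero hz]
      norm_num
  refine h1.integrable_of_hasCompactSupport ?_
  refine HasCompactSupport.intro (isCompact_closedBall (0 : ℂ) (9 / 10)) fun z hz => ?_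
  rw [DCO_eta_zero hz]
  norm_num

theorem DCO_bmp_c : Continuous bmp := by
  have h1 : Continuous fun s : ℂ => 2 - 4 * Complex.normSq s :=
    continuous_const.sub (continuous_const.mul Complex.continuous_normSq)
  exact Real.smoothTransition.continuous.comp h1

theorem DCO_bmp_nn (s : ℂ) : 0 ≤ bmp s := Real.smoothTransition.nonneg _

theorem DCO_phr_c (r : ℝ) : Continuous (phr r) := by
  have h1 : Continuous fun s : ℂ => bmp ((r : ℂ)⁻¹ * s) := DCO_bmp_c.comp (continuous_const.mul continuous_id)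
  exact continuous_const.mul h1

theorem DCO_phr_nn (r : ℝ) (s : ℂ) : 0 ≤ phr r s := by
  have h1 : 0 ≤ ∫ t, bmp t := integral_nonneg fun t => DCO_bmp_nn t
  have h2 := DCO_bmp_nn ((r : ℂ)⁻¹ * s)
  unfold phr
  positivity

theorem DCO_phr_zero {r : ℝ} (hr : 0 < r) {s : ℂ} (hs : s ∉ closedBall (0 : ℂ) r) : phr r s = 0 := by
  have h1 : r < ‖s‖ := by
    simpa [mem_closedBall, dist_zero_right] using hs
  have h2 : bmp ((r : ℂ)⁻¹ * s) = 0 := by
    refine Real.smoothTransition.zero_of_nonpos ?_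
    rw [Complex.normSq_eq_norm_sq, norm_mul, norm_inv, Complex.norm_real, Real.norm_of_nonneg hr.le]
    have h3 : 1 < r⁻¹ * ‖s‖ := by
      rw [inv_mul_eq_div, one_lt_div hr]
      exact h1
    nlinarith
  rw [phr, h2, mul_zero]

theorem DCO_phr_int (r : ℝ) (hr : 0 < r) : Integrable (phr r) := by
  refine (DCO_phr_c r).integrable_of_hasCompactSupport ?_
  exact HasCompactSupport.intro (isCompact_closedBall (0 : ℂ) r) fun z hz => DCO_phr_zero hr hz

theorem DCO_phr_le (r : ℝ) (hr : 0 < r) : ∫ s, phr r s ≤ 1 := by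
  have h1 : ∫ s, phr r s = (r ^ 2)⁻¹ * (∫ t, bmp t)⁻¹ * ∫ s, bmp ((r : ℂ)⁻¹ * s) := by
    rw [← integral_const_mul]
    rfl
  have h2 : ∫ s, bmp ((r : ℂ)⁻¹ * s) = r ^ 2 * ∫ s, bmp s := by
    have h3 := Measure.integral_comp_smul (volume : Measure ℂ) bmp (r⁻¹ : ℝ)
    have h4 : (fun s : ℂ => bmp ((r⁻¹ : ℝ) • s)) = fun s => bmp ((r : ℂ)⁻¹ * s) := by
      funext s
      congr 1
      rw [Complex.real_smul]
      push_cast
      rfl
    rw [h4] at h3
    rw [h3, Complex.finrank_real_complex, smul_eq_mul]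
    congr 1
    rw [inv_pow, inv_inv, abs_of_pos (by positivity)]
  rw [h1, h2]
  have h5 : 0 < r ^ 2 := by positivity
  by_cases h6 : ∫ t, bmp t = 0
  · rw [h6]
    norm_num
  · have h7 : (r ^ 2)⁻¹ * (∫ t, bmp t)⁻¹ * (r ^ 2 * ∫ s, bmp s) = 1 := by
      field_simp
    rw [h7]

theorem DCO_cone_mono (U : Set (PP 2)) {W : E3} (hW : W ∈ cone U) : W ∈ cone (closure U) := by
  obtain ⟨h, h1⟩ := hW
  exact ⟨h, subset_closure h1⟩

end Pool.Agent.P2
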