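import Pool.Agent.helper83.P2.SpecV
import Pool.Agent.helper60.P2.DCOa

set_option autoImplicit false

open scoped ContDiff Topology
open MeasureTheory Filter Set Metric MvPolynomial Pool.Agent.helper37.QA Pool.Agent.P2

namespace Pool.Agent.P2V

theorem VNM_cone_mono {S T : Set (PP 2)} (h : S ⊆ T) : cone S ⊆ cone T := fun _ hx => ⟨hx.1, h hx.2⟩

theorem VNM_anti {d : ℕ} {f : Endo 2 d} {Us : ℕ → Set (PP 2)} {K : Set (PP 2)} (hC : Core f Us K) (m n : ℕ) :
    Us (m + n) ⊆ Us m := by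
  induction n with
  | zero => exact subset_rfl
  | succ n ih => exact (subset_closure.trans (hC.anti (m + n))).trans ih

theorem VNM_anti' {d : ℕ} {f : Endo 2 d} {Us : ℕ → Set (PP 2)} {K : Set (PP 2)} (hC : Core f Us K) {m n : ℕ}
    (h : m ≤ n) : Us n ⊆ Us m := by
  obtain ⟨k, rfl⟩ := Nat.exists_eq_add_of_le h
  exact VNM_anti hC m k

theorem VNM_good {d : ℕ} {f : Endo 2 d} {Us : ℕ → Set (PP 2)} {K : Set (PP 2)} (hC : Core f Us K) (J : ℕ) :
    Good0 f (Us J) := by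
  refine ⟨hC.trap J, ?_⟩
  intro Z hZ h0 h1 hcl
  exact hC.good.2 Z hZ h0 h1 (closure_mono (VNM_anti' hC (Nat.zero_le J)) hcl)

theorem VNM_pq_cont : Continuous (pq : E3 → ℝ) := by
  unfold pq
  exact (Complex.continuous_normSq.comp (continuous_apply 0)).add (Complex.continuous_normSq.comp (continuous_apply 1))

theorem VNM_nq_cont {n : ℕ} : Continuous (nq : (Fin n → ℂ) → ℝ) := by
  unfold nq
  exact continuous_finset_sum _ fun i _ => Complex.continuous_normSq.comp (continuous_apply i)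

theorem VNM_It_cd {d : ℕ} (f : Endo 2 d) (N : ℕ) : ContDiff ℂ ∞ (It f N) :=
  contDiff_pi.mpr fun k => DCO_Icd f N k

theorem VNM_crs_cont {X : Type*} [TopologicalSpace X] {a b : X → E3} {s : Set X} (ha : ContinuousOn a s)
    (hb : ContinuousOn b s) : ContinuousOn (fun x => crs (a x) (b x)) s := by
  have ha' : ∀ i, ContinuousOn (fun x => a x i) s := fun i => (continuous_apply i).comp_continuousOn ha
  have hb' : ∀ i, ContinuousOn (fun x => b x i) s := fun i => (continuous_apply i).comp_continuousOn hb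
  rw [continuousOn_pi]
  intro i
  unfold crs
  fin_cases i
  · exact ((ha' 1).mul (hb' 2)).sub ((ha' 2).mul (hb' 1))
  · exact ((ha' 2).mul (hb' 0)).sub ((ha' 0).mul (hb' 2))
  · exact ((ha' 0).mul (hb' 1)).sub ((ha' 1).mul (hb' 0))

/-- `tau` is continuous on the ball -/
theorem VNM_tau_cont {d : ℕ} (f : Endo 2 d) (N : ℕ) {Z : ℂ → E3} (hZ : DifferentiableOn ℂ Z (ball 0 1))
    (hpos : ∀ z ∈ ball (0 : ℂ) 1, 0 < pq (It f N (Z z))) (hd : 2 ≤ d) : ContinuousOn (tau f N Z) (ball 0 1) := by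
  have h1 : ∀ k : Fin 3, DifferentiableOn ℂ (fun z => It f N (Z z) k) (ball 0 1) := fun k =>
    (DCO_Idf f N k).comp_differentiableOn hZ
  have h2 : ∀ k : Fin 3, ContinuousOn (fun z => It f N (Z z) k) (ball 0 1) := fun k => (h1 k).continuousOn
  have h3 : ∀ k : Fin 3, ContinuousOn (deriv fun z => It f N (Z z) k) (ball 0 1) := fun k =>
    ((h1 k).deriv isOpen_ball).continuousOn
  have h4 : ContinuousOn (fun z => pq (It f N (Z z))) (ball 0 1) :=
    VNM_pq_cont.comp_continuousOn ((VNM_It_cd f N).continuous.comp_continuousOn hZ.continuousOn)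
  unfold tau
  refine ContinuousOn.div_const (ContinuousOn.div ?_ (h4.pow 2) ?_) _
  · exact continuousOn_const.mul (Complex.continuous_normSq.comp_continuousOn
      (((h2 1).mul (h3 0)).sub ((h2 0).mul (h3 1))))
  · intro z hz
    exact (pow_pos (hpos z hz) 2).ne'

theorem VNM_tau_nn {d : ℕ} (f : Endo 2 d) (N : ℕ) (Z : ℂ → E3) (z : ℂ) : 0 ≤ tau f N Z z := by
  unfold tau
  exact div_nonneg (div_nonneg (mul_nonneg (by norm_num) (Complex.normSq_nonneg _)) (sq_nonneg _)) (by positivity)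

theorem VNM_un_cont {d : ℕ} (f : Endo 2 d) (N : ℕ) {Z : ℂ → E3} (hZ : ContinuousOn Z (ball 0 1))
    (hpos : ∀ z ∈ ball (0 : ℂ) 1, 0 < pq (It f N (Z z))) : ContinuousOn (fun z => un f N (Z z)) (ball 0 1) := by
  unfold un
  refine ContinuousOn.div_const (continuousOn_const.mul (ContinuousOn.log ?_ ?_)) _
  · exact VNM_pq_cont.comp_continuousOn ((VNM_It_cd f N).continuous.comp_continuousOn hZ)
  · intro z hz
    exact (hpos z hz).ne'

/-- `Psf` is continuous along a disc -/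
theorem VNM_Psf_cont {d : ℕ} (f : Endo 2 d) (Λ : ℝ) (m N : ℕ) {Z : ℂ → E3} (hZ : ContinuousOn Z (ball 0 1))
    (hpos : ∀ z ∈ ball (0 : ℂ) 1, 0 < pq (It f N (Z z))) : ContinuousOn (fun z => Psf f Λ m N (Z z)) (ball 0 1) := by
  have hh : ContinuousOn (fun z => hop f m N (Z z)) (ball 0 1) := by
    unfold hop
    refine ContinuousOn.mul (ContinuousOn.mul (VNM_nq_cont.comp_continuousOn hZ) ?_) ?_
    · refine continuousOn_finset_sum _ fun i _ => VNM_nq_cont.comp_continuousOn (VNM_crs_cont ?_ ?_)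
      · exact (VNM_It_cd f m).continuous.comp_continuousOn hZ
      · have h1 : Continuous fun W : E3 => fderiv ℂ (It f m) W (Pi.single i 1) := by
          have h2 : Continuous fun q : E3 × E3 => fderiv ℂ (It f m) q.1 q.2 :=
            (VNM_It_cd f m).continuous_fderiv_apply (by simp)
          exact h2.comp (continuous_id.prodMk continuous_const)
        exact h1.comp_continuousOn hZ
    · exact (ContinuousOn.neg (continuousOn_const.mul (VNM_un_cont f N hZ hpos))).rexp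
  have hnn : ∀ z, 0 ≤ hop f m N (Z z) := by
    intro z
    unfold hop
    refine mul_nonneg (mul_nonneg ?_ (Finset.sum_nonneg fun i _ => ?_)) (Real.exp_pos _).le
    · exact Finset.sum_nonneg fun _ _ => Complex.normSq_nonneg _
    · exact Finset.sum_nonneg fun _ _ => Complex.normSq_nonneg _
  unfold Psf
  refine ContinuousOn.log (hh.add continuousOn_const) ?_
  intro z _
  exact (add_pos_of_nonneg_of_pos (hnn z) (Real.exp_pos _)).ne'

/-- bound of an average -/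
theorem VNM_bound {d : ℕ} (f : Endo 2 d) (N : ℕ) {U : Set (PP 2)} {Z : ℂ → E3} (hZ : Dsc U Z) (hd : 2 ≤ d)
    (hpos : ∀ z ∈ ball (0 : ℂ) 1, 0 < pq (It f N (Z z))) (Ψ : E3 → ℝ) (B : ℝ) (hB0 : 0 ≤ B)
    (hB : ∀ W ∈ cone U, |Ψ W| ≤ B) (hm : 0 ≤ mass f N Z) : |Jf f N Ψ Z| ≤ B := by
  rcases hm.eq_or_lt with h0 | h0
  · unfold Jf
    rw [← h0, div_zero, abs_zero]
    exact hB0
  · unfold Jf
    rw [abs_div, abs_of_pos h0, div_le_iff₀ h0]
    have h1 := DCO_int (continuousOn_const.mul (VNM_tau_cont f N hZ.1 hpos hd) : ContinuousOn (fun z => B * tau f N Z z) (ball 0 1))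
    have h2 : B * mass f N Z = ∫ z, eta z ^ 2 * (B * tau f N Z z) := by
      unfold mass
      rw [← integral_const_mul]
      refine integral_congr_ae (Eventually.of_forall fun z => ?_)
      show B * (eta z ^ 2 * tau f N Z z) = eta z ^ 2 * (B * tau f N Z z)
      ring
    rw [h2, ← Real.norm_eq_abs]
    refine norm_integral_le_of_norm_le h1 (Eventually.of_forall fun z => ?_)
    by_cases hz : z ∈ ball (0 : ℂ) 1
    · rw [Real.norm_eq_abs, abs_mul, abs_mul, abs_of_nonneg (sq_nonneg (eta z)), abs_of_nonneg (VNM_tau_nn f N Z z)]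
      exact mul_le_mul_of_nonneg_left (mul_le_mul_of_nonneg_right (hB _ (hZ.2 z hz)) (VNM_tau_nn f N Z z)) (sq_nonneg _)
    · have h3 : eta z = 0 := DCO_eta_zero fun h => hz (DCO_cb h)
      rw [h3]
      simp

/-- subadditivity of averages -/
theorem VNM_sub {d : ℕ} (f : Endo 2 d) (N : ℕ) {U : Set (PP 2)} {Z : ℂ → E3} (hZ : Dsc U Z) (hd : 2 ≤ d)
    (hpos : ∀ z ∈ ball (0 : ℂ) 1, 0 < pq (It f N (Z z))) (Ψ1 Ψ2 Ψ3 : E3 → ℝ) (C : ℝ) (hC : 0 ≤ C)
    (h1 : ContinuousOn (fun z => Ψ1 (Z z)) (ball 0 1)) (h2 : ContinuousOn (fun z => Ψ2 (Z z)) (ball 0 1))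
    (h3 : ContinuousOn (fun z => Ψ3 (Z z)) (ball 0 1)) (hle : ∀ W ∈ cone U, Ψ1 W ≤ Ψ2 W + Ψ3 W + C)
    (hm : 0 ≤ mass f N Z) : Jf f N Ψ1 Z ≤ Jf f N Ψ2 Z + Jf f N Ψ3 Z + C := by
  rcases hm.eq_or_lt with h0 | h0
  · unfold Jf
    rw [← h0]
    simp only [div_zero]
    linarith
  · have ht := VNM_tau_cont f N hZ.1 hpos hd
    have i1 : Integrable (fun z => eta z ^ 2 * (Ψ1 (Z z) * tau f N Z z)) := DCO_int (h1.mul ht)
    have i2 : Integrable (fun z => eta z ^ 2 * (Ψ2 (Z z) * tau f N Z z)) := DCO_int (h2.mul ht)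
    have i3 : Integrable (fun z => eta z ^ 2 * (Ψ3 (Z z) * tau f N Z z)) := DCO_int (h3.mul ht)
    have i4 : Integrable (fun z => eta z ^ 2 * (C * tau f N Z z)) := DCO_int (continuousOn_const.mul ht)
    have i23 : Integrable (fun z => eta z ^ 2 * (Ψ2 (Z z) * tau f N Z z) + eta z ^ 2 * (Ψ3 (Z z) * tau f N Z z)) := i2.add i3
    have e4 : C * mass f N Z = ∫ z, eta z ^ 2 * (C * tau f N Z z) := by
      unfold mass
      rw [← integral_const_mul]
      refine integral_congr_ae (Eventually.of_forall fun z => ?_)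
      show C * (eta z ^ 2 * tau f N Z z) = eta z ^ 2 * (C * tau f N Z z)
      ring
    have key : (∫ z, eta z ^ 2 * (Ψ1 (Z z) * tau f N Z z)) ≤ (∫ z, eta z ^ 2 * (Ψ2 (Z z) * tau f N Z z)) +
        (∫ z, eta z ^ 2 * (Ψ3 (Z z) * tau f N Z z)) + C * mass f N Z := by
      rw [e4, ← integral_add i2 i3, ← integral_add i23 i4]
      refine integral_mono i1 (i23.add i4) fun z => ?_
      show eta z ^ 2 * (Ψ1 (Z z) * tau f N Z z) ≤ eta z ^ 2 * (Ψ2 (Z z) * tau f N Z z) +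
        eta z ^ 2 * (Ψ3 (Z z) * tau f N Z z) + eta z ^ 2 * (C * tau f N Z z)
      by_cases hz : z ∈ ball (0 : ℂ) 1
      · have h5 := mul_le_mul_of_nonneg_left (mul_le_mul_of_nonneg_right (hle _ (hZ.2 z hz)) (VNM_tau_nn f N Z z))
          (sq_nonneg (eta z))
        linarith [h5]
      · have h6 : eta z = 0 := DCO_eta_zero fun h => hz (DCO_cb h)
        rw [h6]
        simp
    unfold Jf
    rw [← add_div, div_add' _ _ _ h0.ne', div_le_div_iff_of_pos_right h0]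
    exact key

/-- the potential of a moved point -/
theorem VNM_un {d : ℕ} (f : Endo 2 d) (U : Set (PP 2)) (hRAD : RAD_stmt) (N : ℕ) (C : ℝ)
    (hU : ∀ n : ℕ, ∀ Z ∈ cone (closure U), |un f n Z - (1 / 2) * Real.log (nq Z)| ≤ C) (A : M3)
    (hA : Near (1 / 100) A) (W : E3) (hW : W ∈ cone (closure U)) (hAW : mv A W ∈ cone (closure U)) :
    |un f N (mv A W)| ≤ |un f N W| + (2 * C + Real.log 2) := by
  have h1 := hU N W hW
  have h2 := hU N _ hAW
  obtain ⟨-, -, h3, h4, -, -⟩ := hRAD.2.1 A hA W W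
  have h5 : 0 < nq W := by
    obtain ⟨hne, -⟩ := hW
    obtain ⟨i, hi⟩ := Function.ne_iff.mp hne
    refine lt_of_lt_of_le (Complex.normSq_pos.mpr hi) ?_
    exact Finset.single_le_sum (f := fun i => Complex.normSq (W i)) (fun i _ => Complex.normSq_nonneg _) (Finset.mem_univ i)
  have h6 : 0 < nq (mv A W) := by linarith
  have hl4 : Real.log 4 = 2 * Real.log 2 := by
    rw [show (4 : ℝ) = 2 ^ 2 by norm_num, Real.log_pow]
    norm_num
  have h7 : Real.log (nq (mv A W)) ≤ 2 * Real.log 2 + Real.log (nq W) := by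
    rw [← hl4, ← Real.log_mul (by norm_num) h5.ne']
    exact Real.log_le_log h6 h4
  have h8 : Real.log (nq W) ≤ 2 * Real.log 2 + Real.log (nq (mv A W)) := by
    rw [← hl4, ← Real.log_mul (by norm_num) h6.ne']
    exact Real.log_le_log h5 (by linarith)
  have h9 := abs_le.mp h1
  have h10 := abs_le.mp h2
  rw [abs_le]
  have h11 := neg_abs_le (un f N W)
  have h12 := le_abs_self (un f N W)
  constructor <;> linarith [h9.1, h9.2, h10.1, h10.2]

theorem VNM (hUN1 : UN1_stmt) (hRAD : RAD_stmt) (hDMS : DMS_stmt) (hVFK : VFK_stmt) (hVNE : VNE_stmt)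
    (hVIT : VIT_stmt) (hVSA : VSA_stmt) (hVSP : VSP_stmt) : VNM_stmt := by
  intro d f Us K Λ hd hC hΛ
  obtain ⟨K0, hK0, hne⟩ := hVNE d f Us K hd hC
  have hgood := VNM_good hC
  obtain ⟨CS, hCS1, hVS⟩ := hVSA d f (Us 0) hd (hgood 0)
  have hd1 : (1 : ℝ) ≤ d := by exact_mod_cast (by omega : 1 ≤ d)
  -- positivity of `pq` along discs
  have hpos : ∀ (J N : ℕ) (Z : ℂ → E3), Dsc (Us J) Z → ∀ z ∈ ball (0 : ℂ) 1, 0 < pq (It f N (Z z)) := by
    intro J N Z hZ z hz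
    obtain ⟨C, -, -, -, h3, -⟩ := hUN1 d f (Us J) hd (hgood J)
    exact (h3 N (Z z) (VNM_cone_mono subset_closure (hZ.2 z hz))).1
  have hDmono : ∀ (J : ℕ) (Z : ℂ → E3), Dsc (Us J) Z → Dsc (Us 0) Z := by
    intro J Z hZ
    exact ⟨hZ.1, fun z hz => VNM_cone_mono (VNM_anti' hC (Nat.zero_le J)) (hZ.2 z hz)⟩
  set Cc : ℝ := CS + Λ with hCc
  have hCc0 : 0 ≤ Cc := by linarith
  have hCSc : CS ≤ Cc := by linarith
  set φ : ℕ → ℕ × (ℂ → E3) → ℝ := fun m x => Jf f x.1 (Psf f Λ m x.1) x.2 with hφ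
  set S : ℕ → ℕ × (ℂ → E3) → ℕ × (ℂ → E3) := fun m x => (x.1 - m, fun z => It f m (x.2 z)) with hS
  -- the shift
  have hshift : ∀ (J : ℕ) (B : ℝ) (M m : ℕ) (x : ℕ × (ℂ → E3)), x ∈ Cls f Us J B (M + m) → S m x ∈ Cls f Us J B M := by
    rintro J B M m ⟨N, Z⟩ ⟨hZ, hN, hM, hu⟩
    obtain ⟨hV1, -, hV3⟩ := hVIT d f (Us J) hd (hgood J) m N (by simp only at hN; omega)
    obtain ⟨hV4, -, -, hV5, -, -⟩ := hV3 Z hZ
    have hM' : ((M + m : ℕ) : ℝ) ≤ mass f N Z := hM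
    have hM0 : (0 : ℝ) ≤ mass f N Z := le_trans (Nat.cast_nonneg _) hM'
    have hdm : (1 : ℝ) ≤ (d : ℝ) ^ m := one_le_pow₀ hd1
    refine ⟨hV4, ?_, ?_, ?_⟩
    · show M ≤ N - m
      have : M + m ≤ N := hN
      omega
    · show (M : ℝ) ≤ mass f (N - m) (fun z => It f m (Z z))
      rw [hV5]
      push_cast at hM'
      have h1 : mass f N Z ≤ (d : ℝ) ^ m * mass f N Z := le_mul_of_one_le_left hM0 hdm
      have h2 : (0 : ℝ) ≤ m := Nat.cast_nonneg m
      linarith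
    · intro z hz
      show |un f (N - m) (It f m (Z z))| ≤ B * mass f (N - m) (fun z => It f m (Z z))
      rw [hV5, (hV1 (Z z)).2, abs_mul, abs_of_nonneg (by positivity : (0 : ℝ) ≤ (d : ℝ) ^ m)]
      have h1 : |un f N (Z z)| ≤ B * mass f N Z := hu z hz
      calc (d : ℝ) ^ m * |un f N (Z z)| ≤ (d : ℝ) ^ m * (B * mass f N Z) :=
            mul_le_mul_of_nonneg_left h1 (by positivity)
        _ = B * ((d : ℝ) ^ m * mass f N Z) := by ring
  -- the bound
  have hbd : ∀ (J : ℕ) (B : ℝ) (m : ℕ) (x : ℕ × (ℂ → E3)), x ∈ Cls f Us J B m → |φ m x| ≤ Cc * (m + 1) := by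
    rintro J B m ⟨N, Z⟩ ⟨hZ, hN, hM, hu⟩
    have hN' : m ≤ N := hN
    have hM0 : (0 : ℝ) ≤ mass f N Z := le_trans (Nat.cast_nonneg _) hM
    refine VNM_bound f N (hDmono J Z hZ) hd (hpos J N Z hZ) (Psf f Λ m N) _ (by positivity) ?_ hM0
    intro W hW
    obtain ⟨-, -, -, h4, -⟩ := hVS Λ m m N hΛ hN' W hW 0
    exact h4
  -- subadditivity
  have hsub : ∀ (J : ℕ) (B : ℝ) (m n : ℕ) (x : ℕ × (ℂ → E3)), x ∈ Cls f Us J B (m + n) →
      φ (m + n) x ≤ φ m x + φ n (S m x) + Cc := by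
    rintro J B m n ⟨N, Z⟩ ⟨hZ, hN, hM, hu⟩
    have hN' : m + n ≤ N := hN
    have hM0 : (0 : ℝ) ≤ mass f N Z := le_trans (Nat.cast_nonneg _) hM
    obtain ⟨hV1, -, hV3⟩ := hVIT d f (Us J) hd (hgood J) m N (by omega)
    obtain ⟨hV4, -, -, -, hV6, -⟩ := hV3 Z hZ
    show Jf f N (Psf f Λ (m + n) N) Z ≤ Jf f N (Psf f Λ m N) Z +
      Jf f (N - m) (Psf f Λ n (N - m)) (fun z => It f m (Z z)) + Cc
    rw [hV6]
    refine VNM_sub f N (hDmono J Z hZ) hd (hpos J N Z hZ) (Psf f Λ (m + n) N) (Psf f Λ m N)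
      (fun Y => Psf f Λ n (N - m) (It f m Y)) Cc hCc0 ?_ ?_ ?_ ?_ hM0
    · exact VNM_Psf_cont f Λ (m + n) N hZ.1.continuousOn (hpos J N Z hZ)
    · exact VNM_Psf_cont f Λ m N hZ.1.continuousOn (hpos J N Z hZ)
    · exact VNM_Psf_cont f Λ n (N - m) hV4.1.continuousOn (hpos J (N - m) _ hV4)
    · intro W hW
      obtain ⟨h1, -, -, -, -⟩ := hVS Λ m n N hΛ (by omega) W hW 0
      linarith
  have hmono : ∀ (J J' : ℕ) (B B' : ℝ) (M M' : ℕ), J ≤ J' → B' ≤ B → M ≤ M' → Cls f Us J' B' M' ⊆ Cls f Us J B M := by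
    rintro J J' B B' M M' hJ hB hM ⟨N, Z⟩ ⟨hZ, hN, hmass, hu⟩
    have hmass' : (M' : ℝ) ≤ mass f N Z := hmass
    have hM0 : (0 : ℝ) ≤ mass f N Z := le_trans (Nat.cast_nonneg _) hmass'
    have hMM : (M : ℝ) ≤ M' := by exact_mod_cast hM
    refine ⟨⟨hZ.1, fun z hz => VNM_cone_mono (VNM_anti' hC hJ) (hZ.2 z hz)⟩, le_trans hM hN, hMM.trans hmass', ?_⟩
    intro z hz
    exact (hu z hz).trans (mul_le_mul_of_nonneg_right hB hM0)
  obtain ⟨Kb, a, hKb, -, hUp, hLo⟩ := hVFK (ℕ × (ℂ → E3)) (Cls f Us) S φ Cc K0 hCc0 hmono (fun J M => hne J M) hshift hbd hsub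
  refine ⟨Kb, a, by linarith, ?_, ?_⟩
  · intro ε hε
    obtain ⟨J0, m0, τ, hτ, hm0, h1⟩ := hUp ε hε
    refine ⟨J0, m0, τ, hτ, hm0, ?_⟩
    intro m hm
    obtain ⟨M, hM⟩ := h1 m hm
    exact ⟨M, fun N Z hNZ => hM (N, Z) hNZ⟩
  · intro ε hε J
    obtain ⟨τ, hτ, hlow⟩ := hLo (ε / 2) (by linarith)
    obtain ⟨r, hr, hr1, hRr⟩ := hRAD.1 d f (Us J) (hC.trap J)
    obtain ⟨C1, hC1, hSP⟩ := hVSP d f (Us J) r hd (hgood J) hr hr1 hRr
    obtain ⟨CD, hCD, hDM, -⟩ := hDMS d f (Us J) r hd (hgood J) hr hr1 hRr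
    obtain ⟨CU, hCU, -, hU2, -, -⟩ := hUN1 d f (Us J) hd (hgood J)
    set Cu : ℝ := 2 * CU + Real.log 2 with hCu
    have hCu0 : 0 ≤ Cu := by
      have := Real.log_nonneg (by norm_num : (1 : ℝ) ≤ 2)
      linarith
    set E1 : ℝ := 4 * Cc + 1 + C1 + C1 * (1 + Λ) with hE1
    refine ⟨Nat.ceil (2 * (E1 + |a| + ε) / ε), ?_⟩
    intro L hL M
    have hL' : 2 * (E1 + |a| + ε) / ε ≤ L := (Nat.le_ceil _).trans (by exact_mod_cast hL)
    rw [div_le_iff₀ hε] at hL'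
    set M' : ℕ := M + 1 + (L + 1) ^ 2 + Nat.ceil C1 + Nat.ceil CD + Nat.ceil ((Kb * CD + Cu) / τ) with hM'
    obtain ⟨⟨N0, Z0⟩, hx, hxl⟩ := hlow J (L + 1) M'
    have hM'1 : M' = (M' - 1) + 1 := by omega
    have hLM : 1 + L ≤ M' := by
      rw [hM']
      nlinarith
    -- the class with the smaller threshold
    have hx2 : ((N0, Z0) : ℕ × (ℂ → E3)) ∈ Cls f Us J (Kb - τ) (1 + L) := by
      obtain ⟨a1, a2, a3, a4⟩ := hx
      refine ⟨a1, le_trans hLM a2, ?_, a4⟩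
      refine le_trans ?_ a3
      exact_mod_cast hLM
    have hx3 : ((N0, Z0) : ℕ × (ℂ → E3)) ∈ Cls f Us J (Kb - τ) 1 := by
      obtain ⟨a1, a2, a3, a4⟩ := hx
      have h1M : 1 ≤ M' := by omega
      refine ⟨a1, le_trans h1M a2, ?_, a4⟩
      refine le_trans ?_ a3
      exact_mod_cast h1M
    have hs1 := hsub J (Kb - τ) 1 L (N0, Z0) hx2
    have hs2 := hbd J (Kb - τ) 1 (N0, Z0) hx3
    rw [add_comm 1 L] at hs1
    obtain ⟨hZ0, hN0, hmass0, hu0⟩ := hx
    have hN0' : M' ≤ N0 := hN0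
    have hmass0' : (M' : ℝ) ≤ mass f N0 Z0 := hmass0
    obtain ⟨hV1, -, hV3⟩ := hVIT d f (Us J) hd (hgood J) 1 N0 (by omega)
    obtain ⟨hV4, hV4', -, hV5, -, -⟩ := hV3 Z0 hZ0
    set Y : ℂ → E3 := fun z => It f 1 (Z0 z) with hY
    set N : ℕ := N0 - 1 with hN
    have hYd : Dsc (f.map '' closure (Us J)) Y := hV4' le_rfl
    have hφL : φ L (S 1 (N0, Z0)) = Jf f N (Psf f Λ L N) Y := rfl
    rw [hφL] at hs1
    have hlow1 : ((L : ℝ) + 1) * (a - ε / 2) - 4 * Cc - 1 ≤ Jf f N (Psf f Λ L N) Y := by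
      have h1 : φ 1 (N0, Z0) ≤ Cc * 2 := by
        have h2 := (le_abs_self _).trans hs2
        push_cast at h2
        linarith
      push_cast at hxl
      linarith
    -- masses
    rw [pow_one] at hV5
    have hm0 : (0 : ℝ) ≤ mass f N0 Z0 := le_trans (Nat.cast_nonneg _) hmass0'
    have hmY : (M' : ℝ) ≤ mass f N Y := by
      rw [hV5]
      exact hmass0'.trans (le_mul_of_one_le_left hm0 hd1)
    have hM'r : (M' : ℝ) = M + 1 + ((L : ℝ) + 1) ^ 2 + (Nat.ceil C1 : ℝ) + (Nat.ceil CD : ℝ) + (Nat.ceil ((Kb * CD + Cu) / τ) : ℝ) := by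
      rw [hM']
      push_cast
      ring
    have hc1 := Nat.le_ceil C1
    have hc2 := Nat.le_ceil CD
    have hc3 := Nat.le_ceil ((Kb * CD + Cu) / τ)
    have hMn : (0 : ℝ) ≤ M := Nat.cast_nonneg M
    have hLn : (0 : ℝ) ≤ L := Nat.cast_nonneg L
    have hKb0 : 0 < Kb := by linarith
    have hq0 : 0 ≤ (Kb * CD + Cu) / τ := by positivity
    obtain ⟨A, hA, hAJ⟩ := hSP Λ L N Y hΛ (by omega) hYd (by nlinarith)
    have hA2 : Near (1 / 100) A := fun i j => lt_of_lt_of_le (hA i j) hr1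
    refine ⟨N, fun z => mv A (Y z), ⟨?_, ?_, ?_, ?_⟩, ?_⟩
    · exact hRAD.2.2.2 (Us J) Y r (f.map '' closure (Us J)) A hRr hA hYd
    · show M ≤ N
      omega
    · show (M : ℝ) ≤ mass f N (fun z => mv A (Y z))
      have h1 := (abs_le.mp (hDM N Y A hYd hA)).1
      nlinarith [sq_nonneg ((L : ℝ) + 1)]
    · intro z hz
      show |un f N (mv A (Y z))| ≤ Kb * mass f N (fun z => mv A (Y z))
      have hYz : Y z ∈ cone (Us J) := hV4.2 z hz
      have hAYz : mv A (Y z) ∈ cone (Us J) := hRr A hA (Y z) (hYd.2 z hz)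
      have h1 := VNM_un f (Us J) hRAD N CU hU2 A hA2 (Y z) (VNM_cone_mono subset_closure hYz)
        (VNM_cone_mono subset_closure hAYz)
      have h2 : |un f N (Y z)| ≤ (Kb - τ) * mass f N Y := by
        have h3 : |un f N0 (Z0 z)| ≤ (Kb - τ) * mass f N0 Z0 := hu0 z hz
        have h4 : un f N (Y z) = (d : ℝ) ^ 1 * un f N0 (Z0 z) := (hV1 (Z0 z)).2
        rw [h4, pow_one, hV5, abs_mul, abs_of_nonneg (by positivity : (0 : ℝ) ≤ d)]
        calc (d : ℝ) * |un f N0 (Z0 z)| ≤ d * ((Kb - τ) * mass f N0 Z0) :=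
              mul_le_mul_of_nonneg_left h3 (by positivity)
          _ = (Kb - τ) * (d * mass f N0 Z0) := by ring
      have h5 := (abs_le.mp (hDM N Y A hYd hA)).1
      have h6 : (Kb * CD + Cu) / τ ≤ mass f N Y := by nlinarith [sq_nonneg ((L : ℝ) + 1)]
      rw [div_le_iff₀ hτ] at h6
      have h7 : Kb * (mass f N Y - CD) ≤ Kb * mass f N (fun z => mv A (Y z)) :=
        mul_le_mul_of_nonneg_left (by linarith) hKb0.le
      nlinarith [h1, h2, h6, h7]
    · -- the lower bound of `Tf`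
      have hmL : ((L : ℝ) + 1) ^ 2 ≤ mass f N Y := by nlinarith
      have hrp : (mass f N Y) ^ (-(1 / 2) : ℝ) ≤ ((L : ℝ) + 1)⁻¹ := by
        have h1 : (((L : ℝ) + 1) ^ 2) ^ (-(1 / 2) : ℝ) = ((L : ℝ) + 1)⁻¹ := by
          rw [← Real.rpow_natCast, ← Real.rpow_mul (by positivity)]
          norm_num
          rw [Real.rpow_neg_one]
        rw [← h1]
        exact Real.rpow_le_rpow_of_nonpos (by positivity) hmL (by norm_num)
      have h2 : C1 * (1 + Λ) * ((L : ℝ) + 1) * (mass f N Y) ^ (-(1 / 2) : ℝ) ≤ C1 * (1 + Λ) := by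
        calc C1 * (1 + Λ) * ((L : ℝ) + 1) * (mass f N Y) ^ (-(1 / 2) : ℝ) ≤
              C1 * (1 + Λ) * ((L : ℝ) + 1) * ((L : ℝ) + 1)⁻¹ :=
              mul_le_mul_of_nonneg_left hrp (by positivity)
          _ = C1 * (1 + Λ) := by
              field_simp
      have h3 := neg_abs_le a
      have h4 : L * (a - ε) ≤ ((L : ℝ) + 1) * (a - ε / 2) - E1 := by nlinarith
      linarith

end Pool.Agent.P2V
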